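import Pool.Agent.Run7.h116.Met.PO1

set_option autoImplicit false

open MeasureTheory Filter Topology ENNReal

namespace Run7.h116.Met

open Run7.h146.Met

section gen

variable {α β : Type*} [MeasurableSpace α] [MeasurableSpace β]

theorem tm_comp {γ : Type*} [MeasurableSpace γ] {h : β → Finset α → ℝ≥0∞} (hT : TM h) {φ : γ → β}
    (hφ : Measurable φ) : TM (fun c F => h (φ c) F) := by
  rw [tm_iff] at hT ⊢
  intro n
  exact (hT n).comp ((hφ.comp measurable_fst).prodMk measurable_snd)

theorem tm_app {γ : Type*} [MeasurableSpace γ] {h : β → Finset α → ℝ≥0∞} (hT : TM h) {n : ℕ}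
    {φ : γ → β} (hφ : Measurable φ) {y : γ → Fin n → α} (hy : Measurable y) :
    Measurable fun c => h (φ c) (im n (y c)) :=
  (tm_iff.1 hT n).comp (hφ.prodMk hy)

theorem im_cons (n : ℕ) (z : α) (y : Fin n → α) :
    im (n + 1) (Fin.cons z y : Fin (n + 1) → α) = ins z (im n y) := by
  classical
  unfold im ins
  ext a
  simp only [Finset.mem_image, Finset.mem_univ, true_and, Finset.mem_insert]
  constructor
  · rintro ⟨i, hi⟩
    revert hi
    refine Fin.cases ?_ (fun j => ?_) i
    · intro hi
      left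
      simpa using hi.symm
    · intro hi
      right
      exact ⟨j, by simpa using hi⟩
  · rintro (h | ⟨j, hj⟩)
    · exact ⟨0, by simpa using h.symm⟩
    · exact ⟨j.succ, by simpa using hj⟩

theorem meas_cons (n : ℕ) : Measurable fun p : α × (Fin n → α) => (Fin.cons p.1 p.2 : Fin (n + 1) → α) := by
  rw [measurable_pi_iff]
  intro i
  refine Fin.cases ?_ (fun j => ?_) i
  · simpa using measurable_fst
  · simp only [Fin.cons_succ]
    exact (measurable_pi_apply j).comp measurable_snd

theorem tm_ins {h : β → Finset α → ℝ≥0∞} (hT : TM h) :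
    TM (fun (p : β × α) F => h p.1 (ins p.2 F)) := by
  rw [tm_iff]
  intro n
  have h1 : Measurable fun q : (β × α) × (Fin n → α) =>
      h q.1.1 (im (n + 1) (Fin.cons q.1.2 q.2 : Fin (n + 1) → α)) :=
    tm_app hT (measurable_fst.comp measurable_fst)
      ((meas_cons n).comp ((measurable_snd.comp measurable_fst).prodMk measurable_snd))
  simp_rw [im_cons] at h1
  exact h1

open Classical in
/-- the filter -/
noncomputable def flt (C : Set (β × α)) (b : β) (F : Finset α) : Finset α :=
  F.filter fun x => (b, x) ∈ C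

theorem flt_im (C : Set (β × α)) (b : β) (n : ℕ) (y : Fin n → α) (I : Finset (Fin n))
    (hI : ∀ i, i ∈ I ↔ (b, y i) ∈ C) :
    flt C b (im n y) = im I.card (fun j => y (I.orderEmbOfFin rfl j)) := by
  classical
  unfold flt im
  ext a
  simp only [Finset.mem_filter, Finset.mem_image, Finset.mem_univ, true_and]
  constructor
  · rintro ⟨⟨i, rfl⟩, hi⟩
    have h1 : i ∈ Set.range (I.orderEmbOfFin rfl) := by
      rw [Finset.range_orderEmbOfFin]
      exact (hI i).2 hi
    obtain ⟨j, hj⟩ := h1
    exact ⟨j, by rw [hj]⟩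
  · rintro ⟨j, rfl⟩
    exact ⟨⟨_, rfl⟩, (hI _).1 (Finset.orderEmbOfFin_mem I rfl j)⟩

theorem tm_flt {h : β → Finset α → ℝ≥0∞} (hT : TM h) {C : Set (β × α)} (hC : MeasurableSet C) :
    TM (fun b F => h b (flt C b F)) := by
  classical
  rw [tm_iff]
  intro n
  let S : Fin n → Set (β × (Fin n → α)) := fun i => {q | (q.1, q.2 i) ∈ C}
  have hS : ∀ i, MeasurableSet (S i) := fun i =>
    hC.preimage (measurable_fst.prodMk ((measurable_pi_apply i).comp measurable_snd))
  let A : Finset (Fin n) → Set (β × (Fin n → α)) := fun I => {q | ∀ i, i ∈ I ↔ (q.1, q.2 i) ∈ C}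
  have hA : ∀ I, MeasurableSet (A I) := by
    intro I
    have h1 : A I = ⋂ i, (if i ∈ I then S i else (S i)ᶜ) := by
      ext q
      simp only [A, S, Set.mem_iInter, Set.mem_setOf_eq]
      refine forall_congr' fun i => ?_
      by_cases hi : i ∈ I <;> simp [hi]
    rw [h1]
    refine MeasurableSet.iInter fun i => ?_
    split_ifs
    · exact hS i
    · exact (hS i).compl
  have h2 : (fun q : β × (Fin n → α) => h q.1 (flt C q.1 (im n q.2))) = fun q =>
      ∑ I : Finset (Fin n), (A I).indicator
        (fun q => h q.1 (im I.card (fun j => q.2 (I.orderEmbOfFin rfl j)))) q := by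
    funext q
    have hI : q ∈ A (Finset.univ.filter fun i => (q.1, q.2 i) ∈ C) := by
      intro i
      simp
    rw [Finset.sum_eq_single (Finset.univ.filter fun i => (q.1, q.2 i) ∈ C)]
    · rw [Set.indicator_of_mem hI, flt_im C q.1 n q.2 _ hI]
    · intro J _ hJ
      apply Set.indicator_of_notMem
      intro hq
      apply hJ
      ext i
      rw [hq i, ← hI i]
    · simp
  show Measurable (fun q : β × (Fin n → α) => h q.1 (flt C q.1 (im n q.2)))
  rw [h2]
  refine Finset.measurable_sum _ fun I _ => ?_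
  refine Measurable.indicator ?_ (hA I)
  refine tm_app hT measurable_fst ?_
  rw [measurable_pi_iff]
  intro j
  exact (measurable_pi_apply _).comp measurable_snd

theorem del_eq (z : α) (F : Finset α) {b : β} :
    del z F = flt {p : (β × α) × α | p.2 ≠ p.1.2} (b, z) F := by
  classical
  unfold del flt
  ext a
  simp [and_comm]

theorem tm_del {h : β → Finset α → ℝ≥0∞} (hT : TM h) (hD : MeasurableSet {p : α × α | p.1 = p.2}) :
    TM (fun (p : β × α) F => h p.1 (del p.2 F)) := by
  have hC : MeasurableSet {p : (β × α) × α | p.2 ≠ p.1.2} := by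
    have : {p : (β × α) × α | p.2 ≠ p.1.2} = ((fun p : (β × α) × α => (p.2, p.1.2)) ⁻¹'
      {p : α × α | p.1 = p.2})ᶜ := by
      ext p
      simp
    rw [this]
    exact (hD.preimage (measurable_snd.prodMk (measurable_snd.comp measurable_fst))).compl
  have h1 := tm_flt (tm_comp hT (measurable_fst : Measurable (Prod.fst : β × α → β))) hC
  have h2 : (fun (p : β × α) F => h p.1 (del p.2 F)) =
      fun (p : β × α) F => h p.1 (flt {p : (β × α) × α | p.2 ≠ p.1.2} p F) := by
    funext p F
    rw [del_eq p.2 F (b := p.1)]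
  rw [h2]
  exact h1

theorem sum_im (n : ℕ) (y : Fin n → α) (f : α → ℝ≥0∞) [∀ i, Decidable (∀ j < i, y j ≠ y i)] :
    ∑ x ∈ im n y, f x = ∑ i : Fin n, if (∀ j < i, y j ≠ y i) then f (y i) else 0 := by
  classical
  rw [← Finset.sum_filter]
  have h1 : im n y = (Finset.univ.filter fun i => ∀ j < i, y j ≠ y i).image y := by
    unfold im
    ext a
    simp only [Finset.mem_image, Finset.mem_univ, true_and, Finset.mem_filter]
    constructor
    · rintro ⟨i, hi⟩
      have hne : (Finset.univ.filter fun i => y i = a).Nonempty := ⟨i, by simpa using hi⟩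
      refine ⟨(Finset.univ.filter fun i => y i = a).min' hne, ?_, ?_⟩
      · intro j hj h2
        have h3 : y ((Finset.univ.filter fun i => y i = a).min' hne) = a := by
          simpa using Finset.min'_mem _ hne
        have h4 : (Finset.univ.filter fun i => y i = a).min' hne ≤ j :=
          Finset.min'_le _ _ (by simpa using h2.trans h3)
        exact absurd hj (not_lt.2 h4)
      · simpa using Finset.min'_mem _ hne
    · rintro ⟨i, _, hi⟩
      exact ⟨i, hi⟩
  rw [h1, Finset.sum_image]
  intro i hi j hj hij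
  simp only [Finset.coe_filter, Finset.mem_univ, true_and, Set.mem_setOf_eq] at hi hj
  rcases lt_trichotomy i j with h | h | h
  · exact absurd hij (hj i h)
  · exact h
  · exact absurd hij.symm (hi j h)

theorem tm_sum {h : β × α → Finset α → ℝ≥0∞} (hT : TM h) (hD : MeasurableSet {p : α × α | p.1 = p.2}) :
    TM (fun (b : β) F => ∑ x ∈ F, h (b, x) F) := by
  classical
  rw [tm_iff]
  intro n
  have h1 : (fun q : β × (Fin n → α) => ∑ x ∈ im n q.2, h (q.1, x) (im n q.2)) = fun q =>
      ∑ i : Fin n, if (∀ j < i, q.2 j ≠ q.2 i) then h (q.1, q.2 i) (im n q.2) else 0 := by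
    funext q
    exact sum_im n q.2 _
  show Measurable (fun q : β × (Fin n → α) => ∑ x ∈ im n q.2, h (q.1, x) (im n q.2))
  rw [h1]
  refine Finset.measurable_sum _ fun i _ => ?_
  refine Measurable.ite ?_ ?_ measurable_const
  · have h2 : {q : β × (Fin n → α) | ∀ j < i, q.2 j ≠ q.2 i} =
        ⋂ j, ⋂ (_ : j < i), ((fun q : β × (Fin n → α) => (q.2 j, q.2 i)) ⁻¹' {p : α × α | p.1 = p.2})ᶜ := by
      ext q
      simp
    rw [h2]
    refine MeasurableSet.iInter fun j => MeasurableSet.iInter fun _ => ?_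
    exact (hD.preimage (((measurable_pi_apply j).comp measurable_snd).prodMk
      ((measurable_pi_apply i).comp measurable_snd))).compl
  · exact tm_app hT (measurable_fst.prodMk ((measurable_pi_apply i).comp measurable_snd)) measurable_snd

theorem meas_lint {h : β → Finset α → ℝ≥0∞} (hT : TM h) (ν : Measure α) [IsFiniteMeasure ν] :
    Measurable (fun b => ∫⁻ F, h b F ∂(poi ν)) := by
  have h1 : (fun b => ∫⁻ F, h b F ∂(poi ν)) = fun b => ∑' n : ℕ, cn ν n *
      ∫⁻ y : Fin n → α, h b (im n y) ∂(Measure.pi fun _ => ν) := by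
    funext b
    exact lint_poi ν (tm_sec hT b)
  rw [h1]
  refine Measurable.ennreal_tsum fun n => ?_
  refine Measurable.const_mul ?_ _
  exact (tm_iff.1 hT n).lintegral_prod_right'

theorem meas_lint' {h : β → Finset α → ℝ≥0∞} (hT : TM h) (κ : Measure β) [SFinite κ] :
    Measurable (fun F => ∫⁻ b, h b F ∂κ) := by
  rw [meas_fun]
  intro n
  exact (tm_iff.1 hT n).lintegral_prod_left'

theorem lint_swap {h : β → Finset α → ℝ≥0∞} (hT : TM h) (ν : Measure α) [IsFiniteMeasure ν]
    (κ : Measure β) [SFinite κ] :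
    ∫⁻ b, ∫⁻ F, h b F ∂(poi ν) ∂κ = ∫⁻ F, ∫⁻ b, h b F ∂κ ∂(poi ν) := by
  rw [lint_poi ν (meas_lint' hT κ)]
  have h1 : ∀ b, ∫⁻ F, h b F ∂(poi ν) = ∑' n : ℕ, cn ν n *
      ∫⁻ y : Fin n → α, h b (im n y) ∂(Measure.pi fun _ => ν) := fun b => lint_poi ν (tm_sec hT b)
  simp_rw [h1]
  rw [lintegral_tsum fun n => ((tm_iff.1 hT n).lintegral_prod_right'.const_mul _).aemeasurable]
  refine tsum_congr fun n => ?_
  rw [lintegral_const_mul _ ((tm_iff.1 hT n).lintegral_prod_right')]
  congr 1
  exact lintegral_lintegral_swap (tm_iff.1 hT n).aemeasurable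

end gen

theorem diagX (d : ℕ) : MeasurableSet {p : X d × X d | p.1 = p.2} :=
  measurableSet_eq_fun measurable_fst measurable_snd

theorem t_PO2 : S_PO2 := by
  intro d β _ h hT
  refine ⟨tm_ins hT, tm_del hT (diagX d), ?_, ?_, ?_⟩
  · intro C hC
    have h1 := tm_flt hT hC
    unfold flt at h1
    exact h1
  · intro ν _
    exact meas_lint hT ν
  · intro ν _ κ _
    exact lint_swap hT ν κ

theorem t_PO3 : S_PO3 := by
  intro d β _ h hT
  exact tm_sum hT (diagX d)

end Run7.h116.Met
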