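import Pool.Agent.Run7.h146.Met.I1

set_option autoImplicit false

open MeasureTheory Filter Topology ENNReal

namespace Run7.h116.Met

theorem image_inst {α β : Type*} (i1 i2 : DecidableEq β) (f : α → β) (s : Finset α) :
    @Finset.image α β i1 f s = @Finset.image α β i2 f s := by
  rw [Subsingleton.elim i1 i2]

open Run7.h146.Met

section gen

variable {α β : Type*} [MeasurableSpace α] [MeasurableSpace β]

open Classical in
/-- the enumeration map -/
noncomputable def im (n : ℕ) (y : Fin n → α) : Finset α := Finset.univ.image y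

theorem meas_set {s : Set (Finset α)} :
    MeasurableSet s ↔ ∀ n, MeasurableSet ((im n : (Fin n → α) → Finset α) ⁻¹' s) := by
  show MeasurableSet[fms] s ↔ _
  unfold fms
  rw [MeasurableSpace.measurableSet_iInf]
  rfl

theorem meas_im (n : ℕ) : Measurable (im n : (Fin n → α) → Finset α) := by
  intro s hs
  exact meas_set.1 hs n

theorem meas_fun {γ : Type*} [MeasurableSpace γ] {G : Finset α → γ} :
    Measurable G ↔ ∀ n, Measurable fun y : Fin n → α => G (im n y) := by
  constructor
  · intro h n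
    exact h.comp (meas_im n)
  · intro h s hs
    rw [meas_set]
    intro n
    exact h n hs

theorem tm_iff {h : β → Finset α → ℝ≥0∞} :
    TM h ↔ ∀ n : ℕ, Measurable fun p : β × (Fin n → α) => h p.1 (im n p.2) := Iff.rfl

theorem tm_sec {h : β → Finset α → ℝ≥0∞} (hT : TM h) (b : β) : Measurable (h b) := by
  rw [meas_fun]
  intro n
  exact (tm_iff.1 hT n).comp (measurable_const.prodMk measurable_id)

theorem tm_const {G : Finset α → ℝ≥0∞} (hG : Measurable G) : TM (fun _ : β => G) := by
  rw [tm_iff]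
  intro n
  exact hG.comp ((meas_im n).comp measurable_snd)

/-- the weights -/
noncomputable def cn (ν : Measure α) (n : ℕ) : ℝ≥0∞ :=
  ENNReal.ofReal (Real.exp (-(ν Set.univ).toReal)) / (n.factorial : ℝ≥0∞)

theorem poi_eq (ν : Measure α) :
    poi ν = Measure.sum fun n : ℕ => cn ν n • (Measure.pi (fun _ : Fin n => ν)).map (im n) := rfl

theorem lint_poi (ν : Measure α) {G : Finset α → ℝ≥0∞} (hG : Measurable G) :
    ∫⁻ F, G F ∂(poi ν) = ∑' n : ℕ, cn ν n * ∫⁻ y : Fin n → α, G (im n y) ∂(Measure.pi fun _ => ν) := by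
  rw [poi_eq, lintegral_sum_measure]
  refine tsum_congr fun n => ?_
  rw [lintegral_smul_measure, lintegral_map hG (meas_im n), smul_eq_mul]

theorem prob_poi (ν : Measure α) [IsFiniteMeasure ν] : IsProbabilityMeasure (poi ν) := by
  constructor
  have h1 := lint_poi ν (G := fun _ => 1) measurable_const
  rw [lintegral_one] at h1
  rw [h1]
  obtain ⟨m, hm⟩ : ∃ m : NNReal, ν Set.univ = m := ⟨(ν Set.univ).toNNReal, by
    rw [ENNReal.coe_toNNReal (measure_ne_top ν _)]⟩
  have h2 : ∀ n : ℕ, cn ν n * ∫⁻ _ : Fin n → α, 1 ∂(Measure.pi fun _ => ν) =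
      ENNReal.ofReal (Real.exp (-(m : ℝ)) * (m : ℝ) ^ n / (n.factorial : ℝ)) := by
    intro n
    rw [lintegral_one, Measure.pi_univ]
    simp only [Finset.prod_const, Finset.card_univ, Fintype.card_fin]
    unfold cn
    rw [hm, ENNReal.coe_toReal]
    rw [ENNReal.ofReal_div_of_pos (by positivity), ENNReal.ofReal_mul (Real.exp_nonneg _),
      ENNReal.ofReal_natCast, ENNReal.ofReal_pow m.coe_nonneg, ENNReal.ofReal_coe_nnreal]
    rw [ENNReal.div_eq_inv_mul, ENNReal.div_eq_inv_mul]
    ring
  simp_rw [h2]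
  have h3 : HasSum (fun n : ℕ => Real.exp (-(m : ℝ)) * (m : ℝ) ^ n / (n.factorial : ℝ)) 1 :=
    ProbabilityTheory.hasSum_one_poissonMeasure m
  rw [← ENNReal.ofReal_tsum_of_nonneg (fun n => by positivity) h3.summable, h3.tsum_eq,
    ENNReal.ofReal_one]

end gen

theorem t_PO1 : S_PO1 := by
  intro d ν _
  refine ⟨prob_poi ν, ?_, ?_, ?_⟩
  · intro G hG
    have h := lint_poi ν hG
    unfold cn im at h
    rw [h]
    refine tsum_congr fun n => congrArg (HMul.hMul _) ?_
    exact lintegral_congr fun y => congrArg G (image_inst _ _ _ _)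
  · intro β _ h hT b
    exact tm_sec hT b
  · intro β _ G hG
    exact tm_const hG

end Run7.h116.Met
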