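import Pool.Agent.Run7.h116.Met.PO2

set_option autoImplicit false

open MeasureTheory Filter Topology ENNReal

namespace Run7.h116.Met

open Run7.h146.Met

section gen

variable {α : Type*} [MeasurableSpace α]

theorem lint_cons (ν : Measure α) [SigmaFinite ν] (n : ℕ) {f : (Fin (n + 1) → α) → ℝ≥0∞}
    (hf : Measurable f) :
    ∫⁻ y, f y ∂(Measure.pi fun _ : Fin (n + 1) => ν) =
      ∫⁻ x, ∫⁻ y, f (Fin.cons x y) ∂(Measure.pi fun _ : Fin n => ν) ∂ν := by
  have e := (measurePreserving_piFinSuccAbove (fun _ : Fin (n + 1) => ν) 0).symm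
  have h1 := e.lintegral_comp hf
  rw [← h1]
  have h2 : Measurable fun a : α × (Fin n → α) =>
      f ((MeasurableEquiv.piFinSuccAbove (fun _ => α) 0).symm a) := hf.comp (MeasurableEquiv.measurable _)
  refine (lintegral_prod _ h2.aemeasurable).trans ?_
  refine lintegral_congr fun x => lintegral_congr fun y => ?_
  congr 1
  exact Fin.insertNth_zero' x y

/-- the integral over `n` points -/
noncomputable def aa (ν : Measure α) (G : Finset α → ℝ≥0∞) (n : ℕ) : ℝ≥0∞ :=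
  ∫⁻ y : Fin n → α, G (im n y) ∂(Measure.pi fun _ => ν)

theorem meas_insG {G : Finset α → ℝ≥0∞} (hG : Measurable G) :
    TM (fun (x : α) F => G (ins x F)) :=
  tm_comp (tm_ins (tm_const (β := Unit) hG)) (φ := fun x : α => ((), x))
    (measurable_const.prodMk measurable_id)

theorem aa_succ (ν : Measure α) [SigmaFinite ν] {G : Finset α → ℝ≥0∞} (hG : Measurable G) (n : ℕ) :
    aa ν G (n + 1) = ∫⁻ x, aa ν (fun F => G (ins x F)) n ∂ν := by
  unfold aa
  have h1 : Measurable fun y : Fin (n + 1) → α => G (im (n + 1) y) := hG.comp (meas_im _)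
  rw [lint_cons ν n h1]
  refine lintegral_congr fun x => lintegral_congr fun y => ?_
  simp only [im_cons]

theorem meas_aa (ν : Measure α) [IsFiniteMeasure ν] {G : Finset α → ℝ≥0∞} (hG : Measurable G) (n : ℕ) :
    Measurable fun x => aa ν (fun F => G (ins x F)) n := by
  unfold aa
  exact (tm_iff.1 (meas_insG hG) n).lintegral_prod_right'

open Classical in
/-- the part in `B` -/
noncomputable def fB (B : Set α) (F : Finset α) : Finset α := F.filter fun z => z ∈ B

theorem fB_ins_mem {B : Set α} {x : α} (hx : x ∈ B) (F : Finset α) : fB B (ins x F) = ins x (fB B F) := by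
  classical
  unfold fB ins
  rw [Finset.filter_insert]
  simp only [hx, if_true]

theorem fB_ins_notMem {B : Set α} {x : α} (hx : x ∉ B) (F : Finset α) : fB B (ins x F) = fB B F := by
  classical
  unfold fB ins
  rw [Finset.filter_insert]
  simp only [hx, if_false]

theorem meas_fB {B : Set α} (hB : MeasurableSet B) {G : Finset α → ℝ≥0∞} (hG : Measurable G) :
    Measurable fun F => G (fB B F) := by
  have h1 := tm_flt (tm_const (β := Unit) hG) (C := {p : Unit × α | p.2 ∈ B}) (hB.preimage measurable_snd)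
  exact tm_sec h1 ()

theorem split (ν : Measure α) [IsFiniteMeasure ν] {B : Set α} (hB : MeasurableSet B) (n : ℕ) :
    ∀ G₁ G₂ : Finset α → ℝ≥0∞, Measurable G₁ → Measurable G₂ →
      aa ν (fun F => G₁ (fB B F) * G₂ (fB Bᶜ F)) n =
        ∑ ij ∈ Finset.HasAntidiagonal.antidiagonal n, (n.choose ij.1 : ℝ≥0∞) *
          (aa (ν.restrict B) G₁ ij.1 * aa (ν.restrict Bᶜ) G₂ ij.2) := by
  induction n with
  | zero =>
    intro G₁ G₂ h₁ h₂
    have h0 : ∀ (μ : Measure α) (G : Finset α → ℝ≥0∞), aa μ G 0 = G ∅ := by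
      intro μ G
      unfold aa
      rw [Measure.pi_of_empty]
      rw [lintegral_dirac]
      congr 1
    rw [h0]
    simp only [Finset.Nat.antidiagonal_zero, Finset.sum_singleton, Nat.choose_self, Nat.cast_one, one_mul, h0]
    simp [fB]
  | succ n ih =>
    intro G₁ G₂ h₁ h₂
    have hH : Measurable (fun F => G₁ (fB B F) * G₂ (fB Bᶜ F)) := (meas_fB hB h₁).mul (meas_fB hB.compl h₂)
    rw [aa_succ ν hH n, ← lintegral_add_compl _ hB]
    have e1 : ∫⁻ x in B, aa ν (fun F => G₁ (fB B (ins x F)) * G₂ (fB Bᶜ (ins x F))) n ∂ν =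
        ∑ ij ∈ Finset.HasAntidiagonal.antidiagonal n, (n.choose ij.1 : ℝ≥0∞) *
          (aa (ν.restrict B) G₁ (ij.1 + 1) * aa (ν.restrict Bᶜ) G₂ ij.2) := by
      have e : ∫⁻ x in B, aa ν (fun F => G₁ (fB B (ins x F)) * G₂ (fB Bᶜ (ins x F))) n ∂ν =
          ∫⁻ x in B, ∑ ij ∈ Finset.HasAntidiagonal.antidiagonal n, (n.choose ij.1 : ℝ≥0∞) *
            (aa (ν.restrict B) (fun F => G₁ (ins x F)) ij.1 * aa (ν.restrict Bᶜ) G₂ ij.2) ∂ν := by
        refine setLIntegral_congr_fun hB fun x hx => ?_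
        rw [← ih (fun F => G₁ (ins x F)) G₂ (tm_sec (meas_insG h₁) x) h₂]
        congr 1
        funext F
        rw [fB_ins_mem hx, fB_ins_notMem (by simpa using hx)]
      rw [e, lintegral_finset_sum _ (fun ij _ => ((meas_aa _ h₁ ij.1).mul_const _).const_mul _)]
      refine Finset.sum_congr rfl fun ij _ => ?_
      rw [lintegral_const_mul _ ((meas_aa _ h₁ ij.1).mul_const _), lintegral_mul_const _ (meas_aa _ h₁ ij.1),
        aa_succ _ h₁]
    have e2 : ∫⁻ x in Bᶜ, aa ν (fun F => G₁ (fB B (ins x F)) * G₂ (fB Bᶜ (ins x F))) n ∂ν =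
        ∑ ij ∈ Finset.HasAntidiagonal.antidiagonal n, (n.choose ij.1 : ℝ≥0∞) *
          (aa (ν.restrict B) G₁ ij.1 * aa (ν.restrict Bᶜ) G₂ (ij.2 + 1)) := by
      have e : ∫⁻ x in Bᶜ, aa ν (fun F => G₁ (fB B (ins x F)) * G₂ (fB Bᶜ (ins x F))) n ∂ν =
          ∫⁻ x in Bᶜ, ∑ ij ∈ Finset.HasAntidiagonal.antidiagonal n, (n.choose ij.1 : ℝ≥0∞) *
            (aa (ν.restrict B) G₁ ij.1 * aa (ν.restrict Bᶜ) (fun F => G₂ (ins x F)) ij.2) ∂ν := by
        refine setLIntegral_congr_fun hB.compl fun x hx => ?_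
        rw [← ih G₁ (fun F => G₂ (ins x F)) h₁ (tm_sec (meas_insG h₂) x)]
        congr 1
        funext F
        rw [fB_ins_mem (B := Bᶜ) hx, fB_ins_notMem (by simpa using hx)]
      rw [e, lintegral_finset_sum _ (fun ij _ => ((meas_aa _ h₂ ij.2).const_mul _).const_mul _)]
      refine Finset.sum_congr rfl fun ij _ => ?_
      rw [lintegral_const_mul _ ((meas_aa _ h₂ ij.2).const_mul _), lintegral_const_mul _ (meas_aa _ h₂ ij.2),
        aa_succ _ h₂]
    rw [e1, e2, Finset.sum_antidiagonal_choose_succ_mul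
      (fun i j => aa (ν.restrict B) G₁ i * aa (ν.restrict Bᶜ) G₂ j) n, add_comm]
    congr 1
    refine Finset.sum_congr rfl fun ij hij => ?_
    rw [Finset.HasAntidiagonal.mem_antidiagonal] at hij
    rw [Nat.choose_symm_of_eq_add hij.symm]

theorem tsum_mul_anti (f g : ℕ → ℝ≥0∞) :
    (∑' i, f i) * (∑' j, g j) = ∑' n, ∑ ij ∈ Finset.HasAntidiagonal.antidiagonal n, f ij.1 * g ij.2 := by
  rw [← ENNReal.tsum_mul_right]
  simp_rw [← ENNReal.tsum_mul_left]
  rw [← ENNReal.tsum_prod (f := fun i j => f i * g j)]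
  rw [← (Finset.HasAntidiagonal.sigmaAntidiagonalEquivProd (A := ℕ)).tsum_eq, ENNReal.tsum_sigma']
  refine tsum_congr fun n => ?_
  rw [← Finset.tsum_subtype (Finset.HasAntidiagonal.antidiagonal n) (fun ij : ℕ × ℕ => f ij.1 * g ij.2)]
  rfl

theorem choose_div (n i j : ℕ) (h : i + j = n) :
    (n.choose i : ℝ≥0∞) * ((n.factorial : ℝ≥0∞))⁻¹ = ((i.factorial : ℝ≥0∞))⁻¹ * ((j.factorial : ℝ≥0∞))⁻¹ := by
  have h1 : (n.choose i) * i.factorial * j.factorial = n.factorial := by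
    have h0 := Nat.add_choose_mul_factorial_mul_factorial i j
    rw [← h, Nat.choose_symm_add]
    exact h0
  have hc : ((n.choose i : ℕ) : ℝ≥0∞) ≠ 0 := by
    have : 0 < n.choose i := Nat.choose_pos (by omega)
    exact_mod_cast this.ne'
  have hc' : ((n.choose i : ℕ) : ℝ≥0∞) ≠ ⊤ := ENNReal.natCast_ne_top _
  have hi' : ((i.factorial : ℕ) : ℝ≥0∞) ≠ ⊤ := ENNReal.natCast_ne_top _
  have hj' : ((j.factorial : ℕ) : ℝ≥0∞) ≠ ⊤ := ENNReal.natCast_ne_top _
  rw [← h1]
  push_cast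
  rw [ENNReal.mul_inv (Or.inr hj') (Or.inl (ENNReal.mul_ne_top hc' hi')), ENNReal.mul_inv (Or.inl hc) (Or.inl hc'),
    ← mul_assoc, ← mul_assoc, ENNReal.mul_inv_cancel hc hc', one_mul]

theorem sup_gen (ν : Measure α) [IsFiniteMeasure ν] {B : Set α} (hB : MeasurableSet B)
    {G₁ G₂ : Finset α → ℝ≥0∞} (h₁ : Measurable G₁) (h₂ : Measurable G₂) :
    ∫⁻ F, G₁ (fB B F) * G₂ (fB Bᶜ F) ∂(poi ν) =
      (∫⁻ F, G₁ F ∂(poi (ν.restrict B))) * ∫⁻ F, G₂ F ∂(poi (ν.restrict Bᶜ)) := by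
  have hH : Measurable (fun F => G₁ (fB B F) * G₂ (fB Bᶜ F)) := (meas_fB hB h₁).mul (meas_fB hB.compl h₂)
  rw [lint_poi ν hH, lint_poi _ h₁, lint_poi _ h₂, tsum_mul_anti]
  refine tsum_congr fun n => ?_
  have hs := split ν hB n G₁ G₂ h₁ h₂
  unfold aa at hs
  rw [hs, Finset.mul_sum]
  refine Finset.sum_congr rfl fun ij hij => ?_
  rw [Finset.HasAntidiagonal.mem_antidiagonal] at hij
  have hE : ENNReal.ofReal (Real.exp (-(ν Set.univ).toReal)) =
      ENNReal.ofReal (Real.exp (-((ν.restrict B) Set.univ).toReal)) *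
        ENNReal.ofReal (Real.exp (-((ν.restrict Bᶜ) Set.univ).toReal)) := by
    rw [Measure.restrict_apply_univ, Measure.restrict_apply_univ, ← ENNReal.ofReal_mul (Real.exp_nonneg _),
      ← Real.exp_add, ← measure_add_measure_compl hB,
      ENNReal.toReal_add (measure_ne_top ν _) (measure_ne_top ν _)]
    congr 2
    ring
  unfold cn
  rw [hE]
  simp only [div_eq_mul_inv]
  have hch := choose_div n ij.1 ij.2 hij
  calc ENNReal.ofReal (Real.exp (-((ν.restrict B) Set.univ).toReal)) *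
        ENNReal.ofReal (Real.exp (-((ν.restrict Bᶜ) Set.univ).toReal)) * (n.factorial : ℝ≥0∞)⁻¹ *
        ((n.choose ij.1 : ℝ≥0∞) * ((∫⁻ y, G₁ (im ij.1 y) ∂Measure.pi fun _ => ν.restrict B) *
          ∫⁻ y, G₂ (im ij.2 y) ∂Measure.pi fun _ => ν.restrict Bᶜ)) =
      ENNReal.ofReal (Real.exp (-((ν.restrict B) Set.univ).toReal)) *
        ENNReal.ofReal (Real.exp (-((ν.restrict Bᶜ) Set.univ).toReal)) *
        ((n.choose ij.1 : ℝ≥0∞) * (n.factorial : ℝ≥0∞)⁻¹) *
        ((∫⁻ y, G₁ (im ij.1 y) ∂Measure.pi fun _ => ν.restrict B) *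
          ∫⁻ y, G₂ (im ij.2 y) ∂Measure.pi fun _ => ν.restrict Bᶜ) := by ring
    _ = _ := by
      rw [hch]
      ring

end gen

theorem t_SUP : S_SUP := by
  intro d ν _ B hB G₁ G₂ h₁ h₂
  have h := sup_gen ν hB h₁ h₂
  refine Eq.trans (lintegral_congr fun F => ?_) h
  have e1 : ∀ H : Finset (X d), fB B F = H → G₁ (fB B F) = G₁ H := fun H hH => by rw [hH]
  have e2 : ∀ H : Finset (X d), fB Bᶜ F = H → G₂ (fB Bᶜ F) = G₂ H := fun H hH => by rw [hH]
  refine congrArg₂ (· * ·) (e1 _ ?_).symm (e2 _ ?_).symm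
  · unfold fB
    ext a
    simp
  · unfold fB
    ext a
    simp

end Run7.h116.Met
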